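import Pool.Agent.Run7.h632.NEG.RMi
import Pool.Agent.Run7.h632.NEG.GAUSS

/-!
# MP_6c92e3_an, piece RM_DIAGOFF: the columns of the random matrix are almost orthonormal
-/

set_option autoImplicit false

namespace Run7.h973.NEG

open MeasureTheory ProbabilityTheory Finset Run7.h35.NEG Run7.h632.NEG

/-- `|G w|²` -/
noncomputable def Qw {a n : ℕ} (w : Fin (2 ^ a) → ℝ) (x : Fin n × Fin (2 ^ a) → ℝ) : ℝ :=
  ∑ b, (∑ ν, Gx x b ν * w ν) ^ 2

/-- the matrix of `x ↦ G w` -/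
noncomputable def Lw {a n : ℕ} (w : Fin (2 ^ a) → ℝ) : Fin n → Fin n × Fin (2 ^ a) → ℝ :=
  fun b i => if i.1 = b then w i.2 / Real.sqrt n else 0

theorem Lw_apply {a n : ℕ} (w : Fin (2 ^ a) → ℝ) (x : Fin n × Fin (2 ^ a) → ℝ) (b : Fin n) :
    ∑ i, Lw w b i * x i = ∑ ν, Gx x b ν * w ν := by
  rw [Fintype.sum_prod_type, Finset.sum_eq_single b]
  · refine sum_congr rfl fun ν _ => ?_
    simp only [Lw, Gx, if_true]
    ring
  · intro b' _ hb
    refine sum_eq_zero fun ν _ => ?_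
    simp only [Lw, if_neg hb, zero_mul]
  · intro h
    exact absurd (mem_univ b) h

theorem tail_w {a n : ℕ} (hn : 0 < n) (w : Fin (2 ^ a) → ℝ) (s ε : ℝ) (hs : 0 < s)
    (hw : ∑ ν, w ν ^ 2 = s) (hε : 0 < ε) (hε1 : ε ≤ 1) :
    (mu a n).real {x | Qw w x ≤ (1 - ε) * s} ≤ Real.exp (-(ε ^ 2 * n / 4)) ∧
    (mu a n).real {x | (1 + ε) * s ≤ Qw w x} ≤ Real.exp (-(ε ^ 2 * n / 8)) := by
  have hn0 : (0 : ℝ) < n := by exact_mod_cast hn
  have hsq : Real.sqrt (n : ℝ) ^ 2 = n := Real.sq_sqrt hn0.le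
  have hL2 : ∑ e : Fin n, ∑ i, Lw (n := n) w e i ^ 2 = s := by
    have h1 : ∀ e : Fin n, ∑ i, Lw (n := n) w e i ^ 2 = s / n := by
      intro e
      rw [Fintype.sum_prod_type, Finset.sum_eq_single e]
      · rw [← hw, sum_div]
        refine sum_congr rfl fun ν _ => ?_
        simp only [Lw, if_true]
        rw [div_pow, hsq]
      · intro b' _ hb
        refine sum_eq_zero fun ν _ => ?_
        simp only [Lw, if_neg hb]
        norm_num
      · intro h
        exact absurd (mem_univ e) h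
    rw [sum_congr rfl fun e _ => h1 e, sum_const, card_univ, Fintype.card_fin, nsmul_eq_mul]
    field_simp
  have hΛ : ∀ x : Fin n × Fin (2 ^ a) → ℝ, (∀ i, i ∉ (univ : Finset (Fin n × Fin (2 ^ a))) → x i = 0) →
      ∑ e, (∑ i, Lw (n := n) w e i * x i) ^ 2 ≤ s / n * ∑ i, x i ^ 2 := by
    intro x _
    rw [Fintype.sum_prod_type, mul_sum]
    refine sum_le_sum fun b _ => ?_
    rw [Lw_apply]
    have h1 : ∑ ν, Gx x b ν * w ν = (∑ ν, w ν * x (b, ν)) / Real.sqrt n := by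
      rw [sum_div]
      refine sum_congr rfl fun ν _ => ?_
      simp only [Gx]
      ring
    rw [h1, div_pow, hsq, div_le_iff₀ hn0]
    have h2 := sum_mul_sq_le_sq_mul_sq univ w (fun ν => x (b, ν))
    rw [hw] at h2
    have h3 : s / n * ∑ ν, x (b, ν) ^ 2 * n = s * ∑ ν, x (b, ν) ^ 2 := by
      rw [← sum_mul]
      field_simp
    calc (∑ ν, w ν * x (b, ν)) ^ 2 ≤ s * ∑ ν, x (b, ν) ^ 2 := h2
      _ = s / n * (∑ ν, x (b, ν) ^ 2) * n := by field_simp
  have hG := GAUSS.main (Fin n × Fin (2 ^ a)) (Fin n) (Lw w) univ s (s / n) ε (by positivity) hε hε1 hΛ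
  have hQ : ∀ x : Fin n × Fin (2 ^ a) → ℝ, ∑ e, (∑ i, Lw (n := n) w e i * x i) ^ 2 = Qw w x := by
    intro x
    rw [Qw]
    refine sum_congr rfl fun b _ => ?_
    rw [Lw_apply]
  constructor
  · have h := hG.1 hL2.ge
    simp only [hQ] at h
    refine h.trans (le_of_eq ?_)
    congr 2
    field_simp
  · have h := hG.2 rfl hL2.le
    simp only [hQ] at h
    refine h.trans (le_of_eq ?_)
    congr 2
    field_simp

/-- the unit vector -/
def ev (a : ℕ) (ν : Fin (2 ^ a)) (κ : Fin (2 ^ a)) : ℝ := if κ = ν then 1 else 0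

theorem ev_sq (a : ℕ) (ν : Fin (2 ^ a)) : ∑ κ, ev a ν κ ^ 2 = 1 := by
  simp [ev]

theorem Qw_ev {a n : ℕ} (ν : Fin (2 ^ a)) (x : Fin n × Fin (2 ^ a) → ℝ) :
    Qw (ev a ν) x = ∑ b, Gx x b ν ^ 2 := by
  simp [Qw, ev]

theorem evp_sq (a : ℕ) (ν μ : Fin (2 ^ a)) (h : ν ≠ μ) (σ : ℝ) (hσ : σ ^ 2 = 1) :
    ∑ κ, (ev a ν κ + σ * ev a μ κ) ^ 2 = 2 := by
  have h1 : ∀ κ, (ev a ν κ + σ * ev a μ κ) ^ 2 = ev a ν κ ^ 2 + ev a μ κ ^ 2 := by
    intro κ
    have h2 : ev a ν κ * ev a μ κ = 0 := by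
      simp only [ev]
      split_ifs with h3 h4
      · exact absurd (h3.symm.trans h4) h
      · simp
      · simp
      · simp
    have h3 : (ev a ν κ + σ * ev a μ κ) ^ 2 =
      ev a ν κ ^ 2 + σ ^ 2 * ev a μ κ ^ 2 + 2 * σ * (ev a ν κ * ev a μ κ) := by ring
    rw [h3, h2, hσ]
    ring
  rw [sum_congr rfl fun κ _ => h1 κ, sum_add_distrib, ev_sq, ev_sq]
  norm_num

theorem Qw_evp {a n : ℕ} (ν μ : Fin (2 ^ a)) (σ : ℝ) (x : Fin n × Fin (2 ^ a) → ℝ) :
    Qw (fun κ => ev a ν κ + σ * ev a μ κ) x = ∑ b, (Gx x b ν + σ * Gx x b μ) ^ 2 := by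
  rw [Qw]
  refine sum_congr rfl fun b _ => ?_
  congr 1
  have h1 : ∀ κ, Gx x b κ * (ev a ν κ + σ * ev a μ κ) =
    Gx x b κ * ev a ν κ + σ * (Gx x b κ * ev a μ κ) := fun κ => by ring
  rw [sum_congr rfl fun κ _ => h1 κ, sum_add_distrib, ← mul_sum]
  simp [ev]

theorem exp_neg_pow_le (a k c : ℕ) : (c : ℝ) ^ a * Real.exp (-(k * a)) = ((c : ℝ) / Real.exp k) ^ a := by
  rw [Real.exp_neg, div_pow, ← Real.exp_nat_mul, mul_comm (k : ℝ) (a : ℝ), div_eq_mul_inv]

theorem diagoff : S_DIAGOFF := by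
  intro ε hε hε1
  refine ⟨64 + 32 / ε ^ 2, by have : 0 < 32 / ε ^ 2 := by positivity
                              linarith, ?_⟩
  intro C₀ hC a n q ρ ha hq hρ hn
  have h32 : 0 < 32 / ε ^ 2 := by positivity
  have hC64 : 64 ≤ C₀ := by linarith
  have ha1 : (64 : ℝ) ≤ a := by linarith
  have ha0 : (0 : ℝ) < a := by linarith
  have haN : 1 ≤ a := by
    have : (1 : ℝ) ≤ a := by linarith
    exact_mod_cast this
  have hn1 : C₀ * a ≤ n := by
    refine le_trans ?_ hn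
    have h1 : (1 : ℝ) ≤ (q : ℝ) * ρ := by
      have e1 : (1 : ℝ) ≤ q := by exact_mod_cast hq
      have e2 : (1 : ℝ) ≤ ρ := by exact_mod_cast hρ
      nlinarith
    have h2 : 0 ≤ C₀ * a := by positivity
    calc C₀ * a = C₀ * a * 1 := (mul_one _).symm
      _ ≤ C₀ * a * ((q : ℝ) * ρ) := by gcongr
      _ = C₀ * a * q * ρ := by ring
  have hn64 : 64 * (a : ℝ) ≤ n := le_trans (by gcongr) hn1
  have hn0 : (0 : ℝ) < n := by linarith
  have hnN : 0 < n := by exact_mod_cast hn0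
  have hε2 : 32 * (a : ℝ) ≤ ε ^ 2 * n := by
    have h1 : (32 / ε ^ 2) * a ≤ n := le_trans (by gcongr; linarith) hn1
    calc 32 * (a : ℝ) = ε ^ 2 * ((32 / ε ^ 2) * a) := by field_simp
      _ ≤ ε ^ 2 * n := by gcongr
  have hprob : IsProbabilityMeasure (mu a n) := by unfold mu; infer_instance
  constructor
  · -- diag
    have hsub : {x : Fin n × Fin (2 ^ a) → ℝ | ¬ PDiag ε a n (Gx x)} ⊆
        ⋃ ν ∈ (univ : Finset (Fin (2 ^ a))), ({x | Qw (ev a ν) x ≤ (1 - ε) * 1} ∪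
          {x | (1 + ε) * 1 ≤ Qw (ev a ν) x}) := by
      intro x hx
      simp only [Set.mem_ofPred_eq, PDiag, not_forall, not_le] at hx
      obtain ⟨ν, hν⟩ := hx
      simp only [Set.mem_iUnion, mem_univ, exists_true_left, Set.mem_union, Set.mem_ofPred_eq]
      refine ⟨ν, ?_⟩
      rw [Qw_ev]
      rcases lt_abs.1 hν with h | h
      · right
        linarith
      · left
        linarith
    refine (measureReal_mono hsub (measure_ne_top _ _)).trans ?_
    refine (measureReal_biUnion_finset_le _ _).trans ?_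
    have h1 : ∀ ν ∈ (univ : Finset (Fin (2 ^ a))), (mu a n).real ({x | Qw (ev a ν) x ≤ (1 - ε) * 1} ∪
          {x | (1 + ε) * 1 ≤ Qw (ev a ν) x}) ≤ 2 * Real.exp (-(4 * a)) := by
      intro ν _
      refine (measureReal_union_le _ _).trans ?_
      obtain ⟨t1, t2⟩ := tail_w (a := a) hnN (ev a ν) 1 ε one_pos (ev_sq a ν) hε hε1.le
      have e1 : Real.exp (-(ε ^ 2 * n / 4)) ≤ Real.exp (-(4 * a)) := by
        apply Real.exp_le_exp.2
        linarith
      have e2 : Real.exp (-(ε ^ 2 * n / 8)) ≤ Real.exp (-(4 * a)) := by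
        apply Real.exp_le_exp.2
        linarith
      linarith
    refine (sum_le_sum h1).trans ?_
    rw [sum_const, card_univ, Fintype.card_fin, nsmul_eq_mul]
    push_cast
    have e3 := exp_neg_pow_le a 4 2
    push_cast at e3
    have e4 : (2 : ℝ) ^ a * (2 * Real.exp (-(4 * a))) = 2 * (2 / Real.exp 4) ^ a := by
      rw [← e3]
      ring
    rw [e4]
    have e5 : (20 : ℝ) ≤ Real.exp 4 := by
      have h := Real.exp_one_gt_d9
      have h2 : Real.exp 4 = Real.exp 1 ^ 4 := by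
        rw [← Real.exp_nat_mul]
        norm_num
      rw [h2]
      have h3 : (2.7 : ℝ) ^ 4 ≤ Real.exp 1 ^ 4 := by
        apply pow_le_pow_left₀ (by norm_num)
        linarith
      norm_num at h3
      linarith
    have e6 : (2 / Real.exp 4) ^ a ≤ (1 / 10 : ℝ) ^ 1 := by
      have e7 : 2 / Real.exp 4 ≤ 1 / 10 := by
        rw [div_le_div_iff₀ (Real.exp_pos _) (by norm_num)]
        linarith
      calc (2 / Real.exp 4) ^ a ≤ (1 / 10 : ℝ) ^ a := by
            apply pow_le_pow_left₀ (by positivity) e7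
        _ ≤ (1 / 10 : ℝ) ^ 1 := pow_le_pow_of_le_one (by norm_num) (by norm_num) haN
    linarith
  · -- off
    obtain ⟨t, ht⟩ : ∃ t : ℝ, t = 8 * Real.sqrt ((a : ℝ) / n) := ⟨_, rfl⟩
    have ht2 : t ^ 2 = 64 * (a / n) := by
      rw [ht, mul_pow, Real.sq_sqrt (by positivity)]
      norm_num
    have ht0 : 0 < t := by
      rw [ht]
      positivity
    have ht1 : t ≤ 1 := by
      have h1 : t ^ 2 ≤ 1 := by
        rw [ht2, ← mul_div_assoc, div_le_one hn0]
        exact hn64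
      nlinarith
    have htn : t ^ 2 * n = 64 * a := by
      rw [ht2]
      field_simp
    have hsub : {x : Fin n × Fin (2 ^ a) → ℝ | ¬ POff a n (Gx x)} ⊆
        ⋃ p ∈ (univ : Finset (Fin (2 ^ a) × Fin (2 ^ a))).filter (fun p => p.1 ≠ p.2),
          ({x | Qw (fun κ => ev a p.1 κ + (-1) * ev a p.2 κ) x ≤ (1 - t) * 2} ∪
          {x | (1 + t) * 2 ≤ Qw (fun κ => ev a p.1 κ + (-1) * ev a p.2 κ) x} ∪
          ({x | Qw (fun κ => ev a p.1 κ + 1 * ev a p.2 κ) x ≤ (1 - t) * 2} ∪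
          {x | (1 + t) * 2 ≤ Qw (fun κ => ev a p.1 κ + 1 * ev a p.2 κ) x})) := by
      intro x hx
      simp only [Set.mem_ofPred_eq, POff, not_forall, not_le] at hx
      obtain ⟨ν, μ, hne, hν⟩ := hx
      rw [← ht] at hν
      simp only [Set.mem_iUnion, mem_filter, mem_univ, true_and, Set.mem_union, Set.mem_ofPred_eq,
        exists_prop]
      refine ⟨(ν, μ), hne, ?_⟩
      simp only
      rw [Qw_evp, Qw_evp]
      have h1 : ∑ b, (Gx x b ν + 1 * Gx x b μ) ^ 2 - ∑ b, (Gx x b ν + (-1) * Gx x b μ) ^ 2 =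
          4 * ∑ b, Gx x b ν * Gx x b μ := by
        rw [← sum_sub_distrib, mul_sum]
        refine sum_congr rfl fun b _ => ?_
        ring
      by_contra hcon
      simp only [not_or, not_le] at hcon
      obtain ⟨⟨c1, c2⟩, c3, c4⟩ := hcon
      rcases lt_abs.1 hν with h | h <;> linarith
    refine (measureReal_mono hsub (measure_ne_top _ _)).trans ?_
    refine (measureReal_biUnion_finset_le _ _).trans ?_
    have h1 : ∀ p ∈ (univ : Finset (Fin (2 ^ a) × Fin (2 ^ a))).filter (fun p => p.1 ≠ p.2),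
        (mu a n).real ({x | Qw (fun κ => ev a p.1 κ + (-1) * ev a p.2 κ) x ≤ (1 - t) * 2} ∪
          {x | (1 + t) * 2 ≤ Qw (fun κ => ev a p.1 κ + (-1) * ev a p.2 κ) x} ∪
          ({x | Qw (fun κ => ev a p.1 κ + 1 * ev a p.2 κ) x ≤ (1 - t) * 2} ∪
          {x | (1 + t) * 2 ≤ Qw (fun κ => ev a p.1 κ + 1 * ev a p.2 κ) x})) ≤
          4 * Real.exp (-(8 * a)) := by
      intro p hp
      rw [mem_filter] at hp
      obtain ⟨t1, t2⟩ := tail_w (a := a) hnN _ 2 t two_pos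
        (evp_sq a p.1 p.2 hp.2 (-1) (by norm_num)) ht0 ht1
      obtain ⟨t3, t4⟩ := tail_w (a := a) hnN _ 2 t two_pos
        (evp_sq a p.1 p.2 hp.2 1 (by norm_num)) ht0 ht1
      rw [htn] at t1 t2 t3 t4
      have e1 : Real.exp (-(64 * (a : ℝ) / 4)) ≤ Real.exp (-(8 * a)) := by
        apply Real.exp_le_exp.2
        linarith
      have e2 : Real.exp (-(64 * (a : ℝ) / 8)) = Real.exp (-(8 * a)) := by
        congr 1
        ring
      rw [e2] at t2 t4
      refine (measureReal_union_le _ _).trans ?_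
      have s1 := (measureReal_union_le (μ := mu a n)
        {x | Qw (fun κ => ev a p.1 κ + (-1) * ev a p.2 κ) x ≤ (1 - t) * 2}
        {x | (1 + t) * 2 ≤ Qw (fun κ => ev a p.1 κ + (-1) * ev a p.2 κ) x})
      have s2 := (measureReal_union_le (μ := mu a n)
        {x | Qw (fun κ => ev a p.1 κ + 1 * ev a p.2 κ) x ≤ (1 - t) * 2}
        {x | (1 + t) * 2 ≤ Qw (fun κ => ev a p.1 κ + 1 * ev a p.2 κ) x})
      linarith
    refine (sum_le_card_nsmul _ _ _ h1).trans ?_
    rw [nsmul_eq_mul]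
    have h2 : ((#((univ : Finset (Fin (2 ^ a) × Fin (2 ^ a))).filter (fun p => p.1 ≠ p.2)) : ℕ) : ℝ)
        ≤ (4 : ℝ) ^ a := by
      have h3 : #((univ : Finset (Fin (2 ^ a) × Fin (2 ^ a))).filter (fun p => p.1 ≠ p.2)) ≤ 4 ^ a := by
        refine (card_filter_le _ _).trans (le_of_eq ?_)
        rw [card_univ, Fintype.card_prod, Fintype.card_fin, ← mul_pow]
        norm_num
      exact_mod_cast h3
    have e3 := exp_neg_pow_le a 8 4
    push_cast at e3
    have e4 : (4 : ℝ) ^ a * (4 * Real.exp (-(8 * a))) = 4 * (4 / Real.exp 8) ^ a := by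
      rw [← e3]
      ring
    refine (mul_le_mul_of_nonneg_right h2 (by positivity)).trans ?_
    rw [e4]
    have e5 : (200 : ℝ) ≤ Real.exp 8 := by
      have h := Real.exp_one_gt_d9
      have h2 : Real.exp 8 = Real.exp 1 ^ 8 := by
        rw [← Real.exp_nat_mul]
        norm_num
      rw [h2]
      have h3 : (2 : ℝ) ^ 8 ≤ Real.exp 1 ^ 8 := by
        apply pow_le_pow_left₀ (by norm_num)
        linarith
      norm_num at h3
      linarith
    have e6 : (4 / Real.exp 8) ^ a ≤ (1 / 50 : ℝ) ^ 1 := by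
      have e7 : 4 / Real.exp 8 ≤ 1 / 50 := by
        rw [div_le_div_iff₀ (Real.exp_pos _) (by norm_num)]
        linarith
      calc (4 / Real.exp 8) ^ a ≤ (1 / 50 : ℝ) ^ a := by
            apply pow_le_pow_left₀ (by positivity) e7
        _ ≤ (1 / 50 : ℝ) ^ 1 := pow_le_pow_of_le_one (by norm_num) (by norm_num) haN
    linarith

end Run7.h973.NEG
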