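import Pool.Agent.Run7.h632.NEG.RMi
import Pool.Agent.Run7.h632.NEG.GAUSS

/-!
# MP_6c92e3_an, piece RM_RIGID: the rigidity property of the random matrix
-/

set_option autoImplicit false

namespace Run7.h973.NEG

open MeasureTheory ProbabilityTheory Finset Run7.h35.NEG Run7.h632.NEG

/-- the columns which lie in at most `ρ` supports -/
noncomputable def Oset {a r : ℕ} (ρ : ℕ) (u v : Fin r → Fin (2 ^ a) → ℝ) : Finset (Fin (2 ^ a)) :=
  univ.filter (fun ν => (univ.filter (fun t => u t ν ≠ 0 ∨ v t ν ≠ 0)).card ≤ ρ)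

noncomputable def LC {a n r m : ℕ} (u v : Fin r → Fin (2 ^ a) → ℝ) (P P' : Fin m → Fin n → ℝ) :
    Fin r × Fin m → Fin n × Fin (2 ^ a) → ℝ :=
  fun e i => (P e.2 i.1 * u e.1 i.2 + P' e.2 i.1 * v e.1 i.2) / Real.sqrt n

noncomputable def tauC {a n r m : ℕ} (ρ : ℕ) (u v : Fin r → Fin (2 ^ a) → ℝ)
    (P P' : Fin m → Fin n → ℝ) : ℝ :=
  ∑ e : Fin r × Fin m, ∑ i ∈ (univ : Finset (Fin n)) ×ˢ Oset ρ u v, LC u v P P' e i ^ 2

noncomputable def QC {a n r m : ℕ} (u v : Fin r → Fin (2 ^ a) → ℝ) (P P' : Fin m → Fin n → ℝ)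
    (G : Fin n → Fin (2 ^ a) → ℝ) : ℝ :=
  ∑ t, ∑ e, (∑ b, P e b * ∑ ν, G b ν * u t ν + ∑ b, P' e b * ∑ ν, G b ν * v t ν) ^ 2

/-- the operator norm of `(P, P')` is at most two -/
def Op2 {n m : ℕ} (P P' : Fin m → Fin n → ℝ) : Prop :=
  ∀ y y' : Fin n → ℝ, ∑ e, (∑ b, P e b * y b + ∑ b, P' e b * y' b) ^ 2 ≤
    4 * (∑ b, y b ^ 2 + ∑ b, y' b ^ 2)

theorem LC_apply {a n r m : ℕ} (u v : Fin r → Fin (2 ^ a) → ℝ) (P P' : Fin m → Fin n → ℝ)
    (e : Fin r × Fin m) (x : Fin n × Fin (2 ^ a) → ℝ) :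
    ∑ i, LC u v P P' e i * x i =
      ∑ b, P e.2 b * ∑ ν, Gx x b ν * u e.1 ν + ∑ b, P' e.2 b * ∑ ν, Gx x b ν * v e.1 ν := by
  rw [Fintype.sum_prod_type, ← sum_add_distrib]
  refine sum_congr rfl fun b _ => ?_
  rw [mul_sum, mul_sum, ← sum_add_distrib]
  refine sum_congr rfl fun ν _ => ?_
  simp only [LC, Gx]
  ring

theorem supp_bound {r N : ℕ} (ρ : ℕ) (H : ℝ) (pr : Fin r → Fin N → Prop)
    [∀ t ν, Decidable (pr t ν)] (u : Fin r → Fin N → ℝ) (z : Fin N → ℝ)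
    (hu : ∀ t, ∑ ν, u t ν ^ 2 ≤ H ^ 2) (hp : ∀ t ν, ¬ pr t ν → u t ν = 0)
    (hz : ∀ ν, ρ < (univ.filter (fun t => pr t ν)).card → z ν = 0) :
    ∑ t, (∑ ν, z ν * u t ν) ^ 2 ≤ ρ * H ^ 2 * ∑ ν, z ν ^ 2 := by
  have h1 : ∀ t, (∑ ν, z ν * u t ν) ^ 2 ≤ (∑ ν, if pr t ν then z ν ^ 2 else 0) * H ^ 2 := by
    intro t
    have h2 : ∑ ν, z ν * u t ν = ∑ ν, (if pr t ν then z ν else 0) * u t ν := by
      refine sum_congr rfl fun ν _ => ?_
      split_ifs with h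
      · rfl
      · rw [hp t ν h]
        ring
    rw [h2]
    refine (sum_mul_sq_le_sq_mul_sq univ _ _).trans ?_
    have h3 : ∑ ν, (if pr t ν then z ν else 0) ^ 2 = ∑ ν, if pr t ν then z ν ^ 2 else 0 := by
      refine sum_congr rfl fun ν _ => ?_
      split_ifs <;> ring
    rw [h3]
    exact mul_le_mul_of_nonneg_left (hu t) (sum_nonneg fun ν _ => by split_ifs <;> positivity)
  refine (sum_le_sum fun t _ => h1 t).trans ?_
  rw [← sum_mul, sum_comm]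
  have h4 : ∀ ν, ∑ t, (if pr t ν then z ν ^ 2 else 0) ≤ ρ * z ν ^ 2 := by
    intro ν
    rw [← sum_filter, sum_const, nsmul_eq_mul]
    by_cases h : ρ < (univ.filter (fun t => pr t ν)).card
    · rw [hz ν h]
      norm_num
    · push Not at h
      have : ((univ.filter (fun t => pr t ν)).card : ℝ) ≤ ρ := by exact_mod_cast h
      gcongr
  calc (∑ ν, ∑ t, if pr t ν then z ν ^ 2 else 0) * H ^ 2 ≤ (∑ ν, ρ * z ν ^ 2) * H ^ 2 := by
        gcongr with ν _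
        exact h4 ν
    _ = _ := by
        rw [← mul_sum]
        ring

theorem lam_bound {a n r m : ℕ} (hn : 0 < n) (ρ : ℕ) (H : ℝ)
    (u v : Fin r → Fin (2 ^ a) → ℝ) (P P' : Fin m → Fin n → ℝ)
    (hu : ∀ t, ∑ ν, u t ν ^ 2 ≤ H ^ 2) (hv : ∀ t, ∑ ν, v t ν ^ 2 ≤ H ^ 2) (hP : Op2 P P')
    (x : Fin n × Fin (2 ^ a) → ℝ)
    (hx : ∀ i, i ∉ (univ : Finset (Fin n)) ×ˢ Oset ρ u v → x i = 0) :
    ∑ e, (∑ i, LC u v P P' e i * x i) ^ 2 ≤ 8 * ρ * H ^ 2 / n * ∑ i, x i ^ 2 := by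
  have hn0 : (0 : ℝ) < n := by exact_mod_cast hn
  have hsq : Real.sqrt (n : ℝ) ^ 2 = n := Real.sq_sqrt hn0.le
  have hz : ∀ (b : Fin n) (ν : Fin (2 ^ a)),
      ρ < (univ.filter (fun t => u t ν ≠ 0 ∨ v t ν ≠ 0)).card → Gx x b ν = 0 := by
    intro b ν h
    have h1 : x (b, ν) = 0 := by
      refine hx _ ?_
      rw [mem_product]
      rintro ⟨-, h2⟩
      rw [Oset, mem_filter] at h2
      exact absurd h2.2 (by simpa using h)
    simp only [Gx, h1, zero_div]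
  simp only [LC_apply]
  rw [Fintype.sum_prod_type]
  have h1 : ∀ t, ∑ e, (∑ b, P e b * ∑ ν, Gx x b ν * u t ν + ∑ b, P' e b * ∑ ν, Gx x b ν * v t ν) ^ 2
      ≤ 4 * (∑ b, (∑ ν, Gx x b ν * u t ν) ^ 2 + ∑ b, (∑ ν, Gx x b ν * v t ν) ^ 2) := fun t =>
    hP (fun b => ∑ ν, Gx x b ν * u t ν) (fun b => ∑ ν, Gx x b ν * v t ν)
  refine (sum_le_sum fun t _ => h1 t).trans ?_
  rw [← mul_sum, sum_add_distrib, sum_comm (s := univ) (t := univ) (f := fun t b =>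
    (∑ ν, Gx x b ν * u t ν) ^ 2), sum_comm (s := univ) (t := univ) (f := fun t b =>
    (∑ ν, Gx x b ν * v t ν) ^ 2)]
  have h2 : ∀ b : Fin n, ∑ t, (∑ ν, Gx x b ν * u t ν) ^ 2 ≤ ρ * H ^ 2 * ∑ ν, Gx x b ν ^ 2 :=
    fun b => supp_bound ρ H (fun t ν => u t ν ≠ 0 ∨ v t ν ≠ 0) u (fun ν => Gx x b ν) hu
      (fun t ν h => by
        by_contra h3
        exact h (Or.inl h3)) (hz b)
  have h3 : ∀ b : Fin n, ∑ t, (∑ ν, Gx x b ν * v t ν) ^ 2 ≤ ρ * H ^ 2 * ∑ ν, Gx x b ν ^ 2 :=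
    fun b => supp_bound ρ H (fun t ν => u t ν ≠ 0 ∨ v t ν ≠ 0) v (fun ν => Gx x b ν) hv
      (fun t ν h => by
        by_contra h3
        exact h (Or.inr h3)) (hz b)
  have h4 : ∑ i, x i ^ 2 = n * ∑ b, ∑ ν, Gx x b ν ^ 2 := by
    rw [Fintype.sum_prod_type, mul_sum]
    refine sum_congr rfl fun b _ => ?_
    rw [mul_sum]
    refine sum_congr rfl fun ν _ => ?_
    simp only [Gx]
    rw [div_pow, hsq]
    field_simp
  rw [h4]
  calc 4 * (∑ b, ∑ t, (∑ ν, Gx x b ν * u t ν) ^ 2 + ∑ b, ∑ t, (∑ ν, Gx x b ν * v t ν) ^ 2)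
      ≤ 4 * (∑ b, (ρ * H ^ 2 * ∑ ν, Gx x b ν ^ 2) + ∑ b, (ρ * H ^ 2 * ∑ ν, Gx x b ν ^ 2)) := by
        have e1 := sum_le_sum fun b (_ : b ∈ (univ : Finset (Fin n))) => h2 b
        have e2 := sum_le_sum fun b (_ : b ∈ (univ : Finset (Fin n))) => h3 b
        linarith
    _ = 8 * ρ * H ^ 2 / n * (n * ∑ b, ∑ ν, Gx x b ν ^ 2) := by
        rw [← mul_sum]
        field_simp
        ring

theorem tail_code {a n r m : ℕ} (hn : 0 < n) (ρ : ℕ) (hρ : 1 ≤ ρ) (H : ℝ) (hH : 1 ≤ H)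
    (u v : Fin r → Fin (2 ^ a) → ℝ) (P P' : Fin m → Fin n → ℝ)
    (hu : ∀ t, ∑ ν, u t ν ^ 2 ≤ H ^ 2) (hv : ∀ t, ∑ ν, v t ν ^ 2 ≤ H ^ 2) (hP : Op2 P P') :
    (mu a n).real {x | QC u v P P' (Gx x) ≤ 9 / 10 * tauC ρ u v P P'} ≤
      Real.exp (-(tauC ρ u v P P' * n / (3200 * ρ * H ^ 2))) := by
  have hn0 : (0 : ℝ) < n := by exact_mod_cast hn
  have hρ0 : (0 : ℝ) < ρ := by exact_mod_cast (by omega : 0 < ρ)
  have hG := (GAUSS.main (Fin n × Fin (2 ^ a)) (Fin r × Fin m) (LC u v P P')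
    ((univ : Finset (Fin n)) ×ˢ Oset ρ u v) (tauC ρ u v P P') (8 * ρ * H ^ 2 / n) (1 / 10)
    (by positivity) (by norm_num) (by norm_num)
    (fun x hx => lam_bound hn ρ H u v P P' hu hv hP x hx)).1 le_rfl
  have hQ : ∀ x : Fin n × Fin (2 ^ a) → ℝ,
      ∑ e, (∑ i, LC u v P P' e i * x i) ^ 2 = QC u v P P' (Gx x) := by
    intro x
    simp only [LC_apply]
    rw [Fintype.sum_prod_type, QC]
  simp only [hQ] at hG
  have e1 : (1 - 1 / 10 : ℝ) = 9 / 10 := by norm_num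
  rw [e1] at hG
  refine hG.trans (le_of_eq ?_)
  congr 2
  field_simp
  ring

/-! ### rounding -/

/-- the grid -/
noncomputable def Grid (a : ℕ) : Finset ℝ :=
  (Icc (-(4 ^ a : ℤ)) (4 ^ a)).image (fun z : ℤ => (z : ℝ) / 4 ^ a)

theorem card_Grid (a : ℕ) : #(Grid a) ≤ 2 * 4 ^ a + 1 := by
  refine card_image_le.trans (le_of_eq ?_)
  rw [Int.card_Icc]
  have : (4 ^ a : ℤ) + 1 - (-(4 ^ a : ℤ)) = ((2 * 4 ^ a + 1 : ℕ) : ℤ) := by
    push_cast
    ring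
  rw [this, Int.toNat_natCast]

noncomputable def rd (a : ℕ) (y : ℝ) : ℝ := (⌊y * 4 ^ a⌋ : ℝ) / 4 ^ a

theorem rd_mem (a : ℕ) (y : ℝ) (h : |y| ≤ 1) : rd a y ∈ Grid a := by
  have h4 : (0 : ℝ) < 4 ^ a := by positivity
  obtain ⟨h1, h2⟩ := abs_le.1 h
  rw [Grid, mem_image]
  refine ⟨⌊y * 4 ^ a⌋, ?_, rfl⟩
  rw [mem_Icc]
  constructor
  · rw [Int.le_floor]
    push_cast
    nlinarith
  · have h3 := Int.floor_le (y * 4 ^ a)
    have h5 : (⌊y * 4 ^ a⌋ : ℝ) ≤ ((4 ^ a : ℤ) : ℝ) := by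
      push_cast
      nlinarith
    exact_mod_cast h5

theorem rd_err (a : ℕ) (y : ℝ) : |rd a y - y| ≤ 1 / 4 ^ a := by
  have h4 : (0 : ℝ) < 4 ^ a := by positivity
  have h1 := Int.floor_le (y * 4 ^ a)
  have h2 := Int.lt_floor_add_one (y * 4 ^ a)
  have h3 : rd a y - y = -((y * 4 ^ a - ⌊y * 4 ^ a⌋) / 4 ^ a) := by
    rw [rd]
    field_simp
    ring
  rw [h3, abs_neg, abs_div, abs_of_pos h4]
  refine div_le_div_of_nonneg_right ?_ h4.le
  rw [abs_le]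
  constructor <;> linarith

theorem rd_abs (a : ℕ) (y : ℝ) (h : |y| ≤ 1) : |rd a y| ≤ 1 := by
  have h4 : (0 : ℝ) < 4 ^ a := by positivity
  have h5 := rd_mem a y h
  rw [Grid, mem_image] at h5
  obtain ⟨z, hz, hzy⟩ := h5
  rw [← hzy, abs_div, abs_of_pos h4, div_le_one h4]
  rw [mem_Icc] at hz
  rw [abs_le]
  constructor
  · exact_mod_cast hz.1
  · exact_mod_cast hz.2

/-! ### Bessel -/

theorem expand {n m : ℕ} (p : Fin m → Fin n → ℝ) (s : Fin m → ℝ) (y : Fin n → ℝ) :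
    ∑ b, (y b - ∑ e, s e * p e b) ^ 2 =
      ∑ b, y b ^ 2 - 2 * ∑ e, s e * ∑ b, p e b * y b +
        ∑ e, ∑ f, s e * s f * ∑ b, p e b * p f b := by
  have h1 : ∀ b, (y b - ∑ e, s e * p e b) ^ 2 =
      y b ^ 2 - 2 * ∑ e, s e * (p e b * y b) + ∑ e, ∑ f, s e * s f * (p e b * p f b) := by
    intro b
    have e1 : (∑ e, s e * p e b) ^ 2 = ∑ e, ∑ f, s e * s f * (p e b * p f b) := by
      rw [sq, sum_mul_sum]
      refine sum_congr rfl fun e _ => sum_congr rfl fun f _ => ?_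
      ring
    have e2 : (∑ e, s e * p e b) * y b = ∑ e, s e * (p e b * y b) := by
      rw [sum_mul]
      refine sum_congr rfl fun e _ => ?_
      ring
    rw [← e1, ← e2]
    ring
  rw [sum_congr rfl fun b _ => h1 b, sum_add_distrib, sum_sub_distrib, ← mul_sum]
  congr 1
  · congr 2
    rw [sum_comm]
    refine sum_congr rfl fun e _ => ?_
    rw [mul_sum]
  · rw [sum_comm]
    refine sum_congr rfl fun e _ => ?_
    rw [sum_comm]
    refine sum_congr rfl fun f _ => ?_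
    rw [mul_sum]

theorem bessel {n m : ℕ} (p p' : Fin m → Fin n → ℝ)
    (h : ∀ e f, ∑ b, p e b * p f b + ∑ b, p' e b * p' f b = if e = f then 1 else 0)
    (y y' : Fin n → ℝ) :
    ∑ e, (∑ b, p e b * y b + ∑ b, p' e b * y' b) ^ 2 ≤ ∑ b, y b ^ 2 + ∑ b, y' b ^ 2 := by
  obtain ⟨s, hs⟩ : ∃ s : Fin m → ℝ, s = fun e => ∑ b, p e b * y b + ∑ b, p' e b * y' b := ⟨_, rfl⟩
  have hs' : ∀ e, ∑ b, p e b * y b + ∑ b, p' e b * y' b = s e := fun e => by rw [hs]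
  have h0 : 0 ≤ ∑ b, (y b - ∑ e, s e * p e b) ^ 2 + ∑ b, (y' b - ∑ e, s e * p' e b) ^ 2 := by
    positivity
  rw [expand, expand] at h0
  have h1 : ∑ e, s e * ∑ b, p e b * y b + ∑ e, s e * ∑ b, p' e b * y' b = ∑ e, s e ^ 2 := by
    rw [← sum_add_distrib]
    refine sum_congr rfl fun e _ => ?_
    rw [← mul_add, hs']
    ring
  have h2 : ∑ e, ∑ f, s e * s f * ∑ b, p e b * p f b + ∑ e, ∑ f, s e * s f * ∑ b, p' e b * p' f b =
      ∑ e, s e ^ 2 := by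
    rw [← sum_add_distrib]
    refine sum_congr rfl fun e _ => ?_
    rw [← sum_add_distrib]
    have h3 : ∀ f, s e * s f * ∑ b, p e b * p f b + s e * s f * ∑ b, p' e b * p' f b =
        if e = f then s e * s f else 0 := by
      intro f
      rw [← mul_add, h e f]
      split_ifs <;> ring
    rw [sum_congr rfl fun f _ => h3 f, sum_ite_eq]
    simp only [mem_univ, if_true]
    ring
  simp only [hs']
  linarith

theorem err_bound {n m : ℕ} (η : ℝ) (D D' : Fin m → Fin n → ℝ) (hD : ∀ e b, |D e b| ≤ η)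
    (hD' : ∀ e b, |D' e b| ≤ η) (y y' : Fin n → ℝ) :
    ∑ e, (∑ b, D e b * y b + ∑ b, D' e b * y' b) ^ 2 ≤
      2 * m * n * η ^ 2 * (∑ b, y b ^ 2 + ∑ b, y' b ^ 2) := by
  have key : ∀ (D : Fin m → Fin n → ℝ), (∀ e b, |D e b| ≤ η) → ∀ (e : Fin m) (y : Fin n → ℝ),
      (∑ b, D e b * y b) ^ 2 ≤ n * η ^ 2 * ∑ b, y b ^ 2 := by
    intro D hD e y
    refine (sum_mul_sq_le_sq_mul_sq univ _ _).trans ?_
    refine mul_le_mul_of_nonneg_right ?_ (by positivity)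
    calc ∑ b, D e b ^ 2 ≤ ∑ _b : Fin n, η ^ 2 := by
          refine sum_le_sum fun b _ => ?_
          rw [← sq_abs]
          exact pow_le_pow_left₀ (abs_nonneg _) (hD e b) 2
      _ = n * η ^ 2 := by simp
  have h1 : ∀ e, (∑ b, D e b * y b + ∑ b, D' e b * y' b) ^ 2 ≤
      2 * n * η ^ 2 * (∑ b, y b ^ 2 + ∑ b, y' b ^ 2) := by
    intro e
    have e1 := key D hD e y
    have e2 := key D' hD' e y'
    nlinarith [sq_nonneg (∑ b, D e b * y b - ∑ b, D' e b * y' b)]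
  refine (sum_le_sum fun e _ => h1 e).trans (le_of_eq ?_)
  rw [sum_const, card_univ, Fintype.card_fin, nsmul_eq_mul]
  ring

theorem tau_eq {a n r m : ℕ} (hn : 0 < n) (ρ : ℕ) (u v : Fin r → Fin (2 ^ a) → ℝ)
    (P P' : Fin m → Fin n → ℝ) :
    tauC ρ u v P P' =
      (∑ e, ∑ b, ∑ t, ∑ ν ∈ Oset ρ u v, (P e b * u t ν + P' e b * v t ν) ^ 2) / n := by
  have hn0 : (0 : ℝ) < n := by exact_mod_cast hn
  have hsq : Real.sqrt (n : ℝ) ^ 2 = n := Real.sq_sqrt hn0.le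
  rw [tauC, Fintype.sum_prod_type, sum_comm, sum_div]
  refine sum_congr rfl fun e _ => ?_
  rw [sum_congr rfl fun t _ => sum_product _ _ _, sum_comm, sum_div]
  refine sum_congr rfl fun b _ => ?_
  rw [sum_div]
  refine sum_congr rfl fun t _ => ?_
  rw [sum_div]
  refine sum_congr rfl fun ν _ => ?_
  simp only [LC]
  rw [div_pow, hsq]

theorem Gu_bound {a n : ℕ} {ε H : ℝ} (hε : ε ≤ 1) (G : Fin n → Fin (2 ^ a) → ℝ)
    (hd : PDiag ε a n G) (u : Fin (2 ^ a) → ℝ) (hu : ∑ ν, u ν ^ 2 ≤ H ^ 2) :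
    ∑ b, (∑ ν, G b ν * u ν) ^ 2 ≤ 2 * 2 ^ a * H ^ 2 := by
  have h1 : ∀ b, (∑ ν, G b ν * u ν) ^ 2 ≤ (∑ ν, G b ν ^ 2) * H ^ 2 := fun b =>
    (sum_mul_sq_le_sq_mul_sq univ _ _).trans
      (mul_le_mul_of_nonneg_left hu (sum_nonneg fun _ _ => sq_nonneg _))
  refine (sum_le_sum fun b _ => h1 b).trans ?_
  rw [← sum_mul, sum_comm]
  refine mul_le_mul_of_nonneg_right ?_ (sq_nonneg _)
  have h2 : ∀ ν, ∑ b, G b ν ^ 2 ≤ 2 := by
    intro ν
    have := (abs_le.1 (hd ν)).2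
    linarith
  refine (sum_le_sum fun ν _ => h2 ν).trans (le_of_eq ?_)
  simp
  ring

/-! ### the deterministic part -/

theorem rigid_of_good {a n q ρ : ℕ} {H ε C₀ : ℝ} (hH : 1 ≤ H) (hε : 0 < ε) (hε1 : ε < 1)
    (hC : 150000 * H ^ 2 / ε ≤ C₀) (ha : C₀ ≤ a) (hn : 1 ≤ n) (G : Fin n → Fin (2 ^ a) → ℝ)
    (hd : PDiag ε a n G)
    (hgood : ∀ r : ℕ, r ≤ 2 ^ a → C₀ * a * n ^ 2 ≤ r → ∀ u v : Fin r → Fin (2 ^ a) → ℝ,
      (∀ t, SG a q H (u t)) → (∀ t, SG a q H (v t)) →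
      ∀ P P' : Fin ((n + 1) / 2) → Fin n → ℝ,
        (∀ e b, P e b ∈ Grid a) → (∀ e b, P' e b ∈ Grid a) → Op2 P P' →
        45 / 100 * ε * r ≤ tauC ρ u v P P' →
        9 / 10 * tauC ρ u v P P' < QC u v P P' G) :
    PRigid H ε C₀ a n q ρ G := by
  intro r hr hr2 u v hu hv lam hlam hadm n' hn' p p' hp
  have hn0 : (0 : ℝ) < n := by exact_mod_cast hn
  have hn1 : (1 : ℝ) ≤ n := by exact_mod_cast hn
  have hH2 : 1 ≤ H ^ 2 := one_le_pow₀ hH
  have hHε : 1 ≤ H ^ 2 / ε := by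
    rw [le_div_iff₀ hε]
    linarith
  have hC1 : 150000 * (H ^ 2 / ε) ≤ C₀ := by
    rw [← mul_div_assoc]
    exact hC
  have hC2 : 150000 ≤ C₀ := by linarith
  have ha1 : 150000 * (H ^ 2 / ε) ≤ a := hC1.trans ha
  have ha2 : (150000 : ℝ) ≤ a := by linarith
  have h2a : (a : ℝ) ≤ 2 ^ a := by
    have : a < 2 ^ a := Nat.lt_two_pow_self
    exact_mod_cast this.le
  have hlam0 : 0 < lam := lt_of_lt_of_le hε hlam
  -- sizes
  have hn2 : (n : ℝ) ^ 2 ≤ 2 ^ a := by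
    have h1 : (r : ℝ) ≤ 2 ^ a := by exact_mod_cast hr
    have h2 : (n : ℝ) ^ 2 ≤ C₀ * a * n ^ 2 := by
      have h3 : 1 ≤ C₀ * a := by nlinarith
      have h4 : (0 : ℝ) ≤ (n : ℝ) ^ 2 := sq_nonneg _
      nlinarith
    linarith
  have hr0 : (0 : ℝ) ≤ r := Nat.cast_nonneg _
  have h4a : (4 : ℝ) ^ a = 2 ^ a * 2 ^ a := by
    rw [← mul_pow]
    norm_num
  have h2pos : (0 : ℝ) < 2 ^ a := by positivity
  have h4pos : (0 : ℝ) < 4 ^ a := by positivity
  obtain ⟨m, hm⟩ : ∃ m : ℕ, m = (n + 1) / 2 := ⟨_, rfl⟩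
  have hmn : m ≤ n := by omega
  have hm2 : n ≤ 2 * m := by omega
  have hmn' : m ≤ n' := by omega
  have hmr : (m : ℝ) ≤ n := by exact_mod_cast hmn
  have hm2r : (n : ℝ) ≤ 2 * m := by exact_mod_cast hm2
  rw [← hm] at hgood
  obtain ⟨p1, hp1⟩ : ∃ p1 : Fin m → Fin n → ℝ, p1 = fun e b => p (Fin.castLE hmn' e) b := ⟨_, rfl⟩
  obtain ⟨p2, hp2⟩ : ∃ p2 : Fin m → Fin n → ℝ, p2 = fun e b => p' (Fin.castLE hmn' e) b := ⟨_, rfl⟩
  have horth : ∀ e f, ∑ b, p1 e b * p1 f b + ∑ b, p2 e b * p2 f b = if e = f then 1 else 0 := by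
    intro e f
    rw [hp1, hp2]
    simp only
    rw [hp]
    simp only [Fin.castLE_inj]
  have hnorm : ∀ e, ∑ b, p1 e b ^ 2 + ∑ b, p2 e b ^ 2 = 1 := by
    intro e
    have := horth e e
    rw [if_pos rfl] at this
    simpa only [sq] using this
  have habs1 : ∀ e b, |p1 e b| ≤ 1 := by
    intro e b
    have h1 : p1 e b ^ 2 ≤ ∑ b, p1 e b ^ 2 :=
      single_le_sum (f := fun b => p1 e b ^ 2) (fun _ _ => sq_nonneg _) (mem_univ b)
    have h2 : 0 ≤ ∑ b, p2 e b ^ 2 := sum_nonneg fun _ _ => sq_nonneg _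
    have h3 := hnorm e
    rw [← sq_le_one_iff_abs_le_one]
    linarith
  have habs2 : ∀ e b, |p2 e b| ≤ 1 := by
    intro e b
    have h1 : p2 e b ^ 2 ≤ ∑ b, p2 e b ^ 2 :=
      single_le_sum (f := fun b => p2 e b ^ 2) (fun _ _ => sq_nonneg _) (mem_univ b)
    have h2 : 0 ≤ ∑ b, p1 e b ^ 2 := sum_nonneg fun _ _ => sq_nonneg _
    have h3 := hnorm e
    rw [← sq_le_one_iff_abs_le_one]
    linarith
  -- the error factor
  obtain ⟨η, hη⟩ : ∃ η : ℝ, η = 1 / 4 ^ a := ⟨_, rfl⟩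
  have hη0 : 0 < η := by rw [hη]; positivity
  have hη2 : 2 * m * n * η ^ 2 ≤ 2 * (2 ^ a * η ^ 2) := by
    have h1 : (m : ℝ) * n ≤ 2 ^ a := by nlinarith
    have h2 : 0 ≤ η ^ 2 := sq_nonneg _
    nlinarith
  have hη3 : 2 ^ a * η ≤ 1 / 150000 := by
    rw [hη, h4a]
    have h1 : (2 : ℝ) ^ a * (1 / (2 ^ a * 2 ^ a)) = 1 / 2 ^ a := by field_simp
    rw [h1]
    exact one_div_le_one_div_of_le (by norm_num) (ha2.trans h2a)
  have hη4 : η ≤ 1 / 150000 := by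
    have h1 : (1 : ℝ) ≤ 2 ^ a := one_le_pow₀ (by norm_num)
    nlinarith
  obtain ⟨P, hP⟩ : ∃ P : Fin m → Fin n → ℝ, P = fun e b => rd a (p1 e b) := ⟨_, rfl⟩
  obtain ⟨P', hP'⟩ : ∃ P' : Fin m → Fin n → ℝ, P' = fun e b => rd a (p2 e b) := ⟨_, rfl⟩
  have hD : ∀ e b, |P e b - p1 e b| ≤ η := fun e b => by
    rw [hP, hη]
    exact rd_err a _
  have hD' : ∀ e b, |P' e b - p2 e b| ≤ η := fun e b => by
    rw [hP', hη]
    exact rd_err a _
  have hE : ∀ y y' : Fin n → ℝ,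
      ∑ e, (∑ b, (P e b - p1 e b) * y b + ∑ b, (P' e b - p2 e b) * y' b) ^ 2 ≤
        2 * (2 ^ a * η ^ 2) * (∑ b, y b ^ 2 + ∑ b, y' b ^ 2) := by
    intro y y'
    refine (err_bound η (fun e b => P e b - p1 e b) (fun e b => P' e b - p2 e b) hD hD' y y').trans ?_
    exact mul_le_mul_of_nonneg_right hη2 (by positivity)
  have hsplit : ∀ (e : Fin m) (y y' : Fin n → ℝ), ∑ b, P e b * y b + ∑ b, P' e b * y' b =
      (∑ b, p1 e b * y b + ∑ b, p2 e b * y' b) +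
        (∑ b, (P e b - p1 e b) * y b + ∑ b, (P' e b - p2 e b) * y' b) := by
    intro e y y'
    simp only [sub_mul, sum_sub_distrib]
    ring
  have hOp : Op2 P P' := by
    intro y y'
    have h1 := bessel p1 p2 horth y y'
    have h2 := hE y y'
    have h3 : ∀ e, (∑ b, P e b * y b + ∑ b, P' e b * y' b) ^ 2 ≤
        2 * (∑ b, p1 e b * y b + ∑ b, p2 e b * y' b) ^ 2 +
        2 * (∑ b, (P e b - p1 e b) * y b + ∑ b, (P' e b - p2 e b) * y' b) ^ 2 := by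
      intro e
      rw [hsplit]
      nlinarith [sq_nonneg ((∑ b, p1 e b * y b + ∑ b, p2 e b * y' b) -
        (∑ b, (P e b - p1 e b) * y b + ∑ b, (P' e b - p2 e b) * y' b))]
    refine (sum_le_sum fun e _ => h3 e).trans ?_
    rw [sum_add_distrib, ← mul_sum, ← mul_sum]
    have h4 : 0 ≤ ∑ b, y b ^ 2 + ∑ b, y' b ^ 2 := by positivity
    have h5 : 2 * (2 ^ a * η ^ 2) ≤ 1 := by
      have : (2 : ℝ) ^ a * η ^ 2 = (2 ^ a * η) * η := by ring
      rw [this]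
      have h6 : 2 ^ a * η * η ≤ 1 / 150000 * 1 := mul_le_mul hη3 (by linarith) hη0.le (by norm_num)
      linarith
    have h6 : 2 * (2 ^ a * η ^ 2) * (∑ b, y b ^ 2 + ∑ b, y' b ^ 2) ≤
        1 * (∑ b, y b ^ 2 + ∑ b, y' b ^ 2) := mul_le_mul_of_nonneg_right h5 h4
    linarith
  -- the size of `P`
  have hsize : 45 / 100 * (n : ℝ) ≤ ∑ e, ∑ b, (P e b ^ 2 + P' e b ^ 2) := by
    have h1 : ∀ e, 9 / 10 ≤ ∑ b, (P e b ^ 2 + P' e b ^ 2) := by
      intro e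
      have h2 : ∀ b, p1 e b ^ 2 + p2 e b ^ 2 - 4 * η ≤ P e b ^ 2 + P' e b ^ 2 := by
        intro b
        have k : ∀ y : ℝ, |y| ≤ 1 → y ^ 2 - 2 * η ≤ rd a y ^ 2 := by
          intro y hy
          have k1 := rd_err a y
          rw [← hη] at k1
          have k2 := rd_abs a y hy
          have k3 : |rd a y ^ 2 - y ^ 2| ≤ η * 2 := by
            have k4 : rd a y ^ 2 - y ^ 2 = (rd a y - y) * (rd a y + y) := by ring
            rw [k4, abs_mul]
            refine mul_le_mul k1 ?_ (abs_nonneg _) hη0.le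
            exact (abs_add_le _ _).trans (by linarith)
          have := (abs_le.1 k3).1
          linarith
        have e1 := k _ (habs1 e b)
        have e2 := k _ (habs2 e b)
        rw [hP, hP']
        simp only
        linarith
      have h3 := sum_le_sum fun b (_ : b ∈ (univ : Finset (Fin n))) => h2 b
      rw [sum_sub_distrib, sum_add_distrib, hnorm, sum_const, card_univ, Fintype.card_fin,
        nsmul_eq_mul] at h3
      have h4 : (n : ℝ) * (4 * η) ≤ 1 / 10 := by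
        have h5 : (n : ℝ) ≤ 2 ^ a := by nlinarith
        have h6 : (n : ℝ) * η ≤ 2 ^ a * η := mul_le_mul_of_nonneg_right h5 hη0.le
        linarith
      linarith
    have h2 := sum_le_sum fun e (_ : e ∈ (univ : Finset (Fin m))) => h1 e
    rw [sum_const, card_univ, Fintype.card_fin, nsmul_eq_mul] at h2
    linarith
  -- the mean
  have htau : 45 / 100 * lam * r ≤ tauC ρ u v P P' := by
    rw [tau_eq (by omega), le_div_iff₀ hn0]
    have h1 : ∑ e, ∑ b, lam * r * (P e b ^ 2 + P' e b ^ 2) ≤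
        ∑ e, ∑ b, ∑ t, ∑ ν ∈ Oset ρ u v, (P e b * u t ν + P' e b * v t ν) ^ 2 :=
      sum_le_sum fun e _ => sum_le_sum fun b _ => hadm (P e b) (P' e b)
    refine le_trans ?_ h1
    simp only [← mul_sum]
    have h2 : 0 ≤ lam * r := by positivity
    nlinarith
  have hQ := hgood r hr hr2 u v hu hv P P'
    (fun e b => by rw [hP]; exact rd_mem a _ (habs1 e b))
    (fun e b => by rw [hP']; exact rd_mem a _ (habs2 e b)) hOp
    (le_trans (by gcongr) htau)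
  -- the passage from `P` to `p`
  obtain ⟨X, hX⟩ : ∃ X : ℝ, X = ∑ t, ∑ e : Fin m, (∑ b, p1 e b * ∑ ν, G b ν * u t ν +
    ∑ b, p2 e b * ∑ ν, G b ν * v t ν) ^ 2 := ⟨_, rfl⟩
  obtain ⟨Z, hZ⟩ : ∃ Z : ℝ, Z = ∑ t, ∑ e : Fin m, (∑ b, (P e b - p1 e b) * ∑ ν, G b ν * u t ν +
    ∑ b, (P' e b - p2 e b) * ∑ ν, G b ν * v t ν) ^ 2 := ⟨_, rfl⟩
  have hQX : QC u v P P' G ≤ 5 / 4 * X + 5 * Z := by
    rw [QC, hX, hZ, mul_sum, mul_sum, ← sum_add_distrib]
    refine sum_le_sum fun t _ => ?_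
    rw [mul_sum, mul_sum, ← sum_add_distrib]
    refine sum_le_sum fun e _ => ?_
    rw [hsplit]
    nlinarith [sq_nonneg ((∑ b, p1 e b * ∑ ν, G b ν * u t ν + ∑ b, p2 e b * ∑ ν, G b ν * v t ν) -
        4 * (∑ b, (P e b - p1 e b) * ∑ ν, G b ν * u t ν +
          ∑ b, (P' e b - p2 e b) * ∑ ν, G b ν * v t ν))]
  have hZb : 5 * Z ≤ 1 / 100 * lam * r := by
    have h1 : Z ≤ r * (2 * (2 ^ a * η ^ 2) * (4 * 2 ^ a * H ^ 2)) := by
      rw [hZ]
      have h2 : ∀ t, ∑ e : Fin m, (∑ b, (P e b - p1 e b) * ∑ ν, G b ν * u t ν +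
          ∑ b, (P' e b - p2 e b) * ∑ ν, G b ν * v t ν) ^ 2 ≤
          2 * (2 ^ a * η ^ 2) * (4 * 2 ^ a * H ^ 2) := by
        intro t
        refine (hE _ _).trans ?_
        refine mul_le_mul_of_nonneg_left ?_ (by positivity)
        have e1 := Gu_bound hε1.le G hd (u t) (hu t).2.2
        have e2 := Gu_bound hε1.le G hd (v t) (hv t).2.2
        linarith
      refine (sum_le_sum fun t _ => h2 t).trans (le_of_eq ?_)
      rw [sum_const, card_univ, Fintype.card_fin, nsmul_eq_mul]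
    have h3 : 2 * (2 ^ a * η ^ 2) * (4 * 2 ^ a * H ^ 2) = 8 * (2 ^ a * η) ^ 2 * H ^ 2 := by ring
    have h4 : (2 ^ a * η) ^ 2 = 1 / (2 ^ a * 2 ^ a) := by
      rw [hη, h4a]
      field_simp
    have h5 : 8 * (2 ^ a * η) ^ 2 * H ^ 2 ≤ ε / 1000 := by
      rw [h4]
      have h6 : 150000 * (H ^ 2 / ε) ≤ 2 ^ a := ha1.trans h2a
      have h7 : 150000 * H ^ 2 ≤ ε * 2 ^ a := by
        have h8 := mul_le_mul_of_nonneg_left h6 hε.le
        have h9 : ε * (150000 * (H ^ 2 / ε)) = 150000 * H ^ 2 := by field_simp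
        linarith
      have h8 : (1 : ℝ) ≤ 2 ^ a := one_le_pow₀ (by norm_num)
      have h9 : ε * 2 ^ a ≤ ε * (2 ^ a * 2 ^ a) := by
        refine mul_le_mul_of_nonneg_left ?_ hε.le
        nlinarith
      have h10 : 8 * (1 / (2 ^ a * 2 ^ a)) * H ^ 2 = 8 * H ^ 2 / (2 ^ a * 2 ^ a) := by ring
      rw [h10, div_le_iff₀ (by positivity)]
      have h11 : ε / 1000 * (2 ^ a * 2 ^ a) = (ε * (2 ^ a * 2 ^ a)) / 1000 := by ring
      rw [h11]
      linarith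
    rw [h3] at h1
    have h6 : (r : ℝ) * (8 * (2 ^ a * η) ^ 2 * H ^ 2) ≤ r * (ε / 1000) :=
      mul_le_mul_of_nonneg_left h5 hr0
    have h7 : (r : ℝ) * ε ≤ r * lam := mul_le_mul_of_nonneg_left hlam hr0
    have h8 : 0 ≤ (r : ℝ) * lam := by positivity
    linarith
  have hXfin : lam / 4 * r ≤ X := by
    have h1 : 0 ≤ lam * r := by positivity
    linarith
  -- from the first `m` vectors to all
  refine hXfin.trans ?_
  rw [hX]
  refine sum_le_sum fun t _ => ?_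
  obtain ⟨F, hF⟩ : ∃ F : Fin n' → ℝ, F = fun e => (∑ b, p e b * ∑ ν, G b ν * u t ν +
    ∑ b, p' e b * ∑ ν, G b ν * v t ν) ^ 2 := ⟨_, rfl⟩
  have h1 : ∑ e : Fin m, (∑ b, p1 e b * ∑ ν, G b ν * u t ν + ∑ b, p2 e b * ∑ ν, G b ν * v t ν) ^ 2 =
      ∑ e ∈ (univ : Finset (Fin m)).map (Fin.castLEEmb hmn'), F e := by
    rw [sum_map, hF, hp1, hp2]
    rfl
  have h2 : ∑ e : Fin n', (∑ b, p e b * ∑ ν, G b ν * u t ν + ∑ b, p' e b * ∑ ν, G b ν * v t ν) ^ 2 =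
      ∑ e, F e := by rw [hF]
  rw [h1, h2]
  refine sum_le_sum_of_subset_of_nonneg (subset_univ _) fun e _ _ => ?_
  rw [hF]
  positivity

/-! ### the union bound -/

theorem two_pow_le_exp (k : ℕ) : (2 : ℝ) ^ k ≤ Real.exp k := by
  have h1 : (2 : ℝ) ≤ Real.exp 1 := by
    have := Real.exp_one_gt_d9
    linarith
  calc (2 : ℝ) ^ k ≤ Real.exp 1 ^ k := pow_le_pow_left₀ (by norm_num) h1 k
    _ = Real.exp k := by rw [← Real.exp_nat_mul, mul_one]

theorem rigid (hcodes : S_CODES) : S_RIGID := by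
  classical
  intro H ε hH hε hε1
  obtain ⟨C₁, hC₁, hcode⟩ := hcodes H hH
  have hH2 : 1 ≤ H ^ 2 := one_le_pow₀ hH
  have hHε : 1 ≤ H ^ 2 / ε := by
    rw [le_div_iff₀ hε]
    linarith
  refine ⟨max C₁ (150000 * H ^ 2 / ε), le_max_of_le_left hC₁, ?_⟩
  intro C₀ hC₀ a n q ρ ha hq hρ hn
  have hC1 : C₁ ≤ C₀ := (le_max_left _ _).trans hC₀
  have hC2 : 150000 * H ^ 2 / ε ≤ C₀ := (le_max_right _ _).trans hC₀
  have hC2' : 150000 * (H ^ 2 / ε) ≤ C₀ := by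
    rw [← mul_div_assoc]
    exact hC2
  have hC3 : 150000 ≤ C₀ := by linarith
  have ha1 : (150000 : ℝ) ≤ a := hC3.trans ha
  have ha0 : (0 : ℝ) < a := by linarith
  have haN : 1 ≤ a := by
    have : (1 : ℝ) ≤ a := by linarith
    exact_mod_cast this
  have hq1 : (1 : ℝ) ≤ q := by exact_mod_cast hq
  have hρ1 : (1 : ℝ) ≤ ρ := by exact_mod_cast hρ
  have hn0 : (0 : ℝ) < n := by
    refine lt_of_lt_of_le ?_ hn
    positivity
  have hnN : 0 < n := by exact_mod_cast hn0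
  have hprob : IsProbabilityMeasure (mu a n) := by unfold mu; infer_instance
  obtain ⟨hfin, hcard⟩ := hcode a q (2 ^ a) (hC1.trans ha) hq le_rfl
  obtain ⟨S, hS⟩ : ∃ S : Finset (Fin (2 ^ a) → ℝ), S = hfin.toFinset := ⟨_, rfl⟩
  have hSmem : ∀ v, v ∈ S ↔ SG a q H v := by
    intro v
    rw [hS, Set.Finite.mem_toFinset]
    rfl
  have hScard : #S ≤ 2 ^ (4 * a * q) := by
    rw [hS, ← Set.ncard_eq_toFinset_card _ hfin]
    exact hcard
  obtain ⟨m, hm⟩ : ∃ m : ℕ, m = (n + 1) / 2 := ⟨_, rfl⟩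
  have hmn : m ≤ n := by omega
  obtain ⟨PG, hPG⟩ : ∃ PG : Finset (Fin m → Fin n → ℝ), PG =
    Fintype.piFinset (fun _ : Fin m => Fintype.piFinset (fun _ : Fin n => Grid a)) := ⟨_, rfl⟩
  have hPGmem : ∀ P, P ∈ PG ↔ ∀ e b, P e b ∈ Grid a := by
    intro P
    rw [hPG]
    simp only [Fintype.mem_piFinset]
  have hPGcard : #PG ≤ 2 ^ ((2 * a + 2) * (n * m)) := by
    rw [hPG, Fintype.card_piFinset_const, Fintype.card_piFinset_const, ← pow_mul]
    calc #(Grid a) ^ (n * m) ≤ (2 ^ (2 * a + 2)) ^ (n * m) := by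
          refine Nat.pow_le_pow_left ((card_Grid a).trans ?_) _
          have h1 : 2 ^ (2 * a + 2) = 4 * 4 ^ a := by
            rw [pow_add, pow_mul]
            norm_num
            ring
          have h2 : 1 ≤ 4 ^ a := Nat.one_le_pow _ _ (by norm_num)
          omega
      _ = 2 ^ ((2 * a + 2) * (n * m)) := by rw [← pow_mul]
  -- the bad set for one `r`
  let Bad : ℕ → Set (Fin n × Fin (2 ^ a) → ℝ) := fun r =>
    ⋃ c ∈ ((Fintype.piFinset (fun _ : Fin r => S) ×ˢ Fintype.piFinset (fun _ : Fin r => S)) ×ˢ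
      (PG ×ˢ PG)).filter (fun c => Op2 c.2.1 c.2.2 ∧
        45 / 100 * ε * r ≤ tauC ρ c.1.1 c.1.2 c.2.1 c.2.2),
      {x | QC c.1.1 c.1.2 c.2.1 c.2.2 (Gx x) ≤ 9 / 10 * tauC ρ c.1.1 c.1.2 c.2.1 c.2.2}
  have hsub : {x | PDiag ε a n (Gx x) ∧ ¬ PRigid H ε C₀ a n q ρ (Gx x)} ⊆
      ⋃ r ∈ (range (2 ^ a + 1)).filter (fun r : ℕ => C₀ * a * n ^ 2 ≤ r), Bad r := by
    intro x hx
    obtain ⟨hx1, hx2⟩ := hx
    by_contra hcon
    apply hx2
    refine rigid_of_good hH hε hε1 hC2 ha hnN (Gx x) hx1 ?_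
    rw [← hm]
    intro r hr hr2 u v hu hv P P' hP hP' hOp hτ
    by_contra hle
    push Not at hle
    apply hcon
    simp only [Set.mem_iUnion]
    refine ⟨r, ?_, ?_⟩
    · rw [mem_filter, mem_range]
      exact ⟨by omega, hr2⟩
    · simp only [Bad, Set.mem_iUnion]
      refine ⟨((u, v), (P, P')), ?_, hle⟩
      rw [mem_filter, mem_product, mem_product, mem_product, Fintype.mem_piFinset,
        Fintype.mem_piFinset]
      exact ⟨⟨⟨fun t => (hSmem _).2 (hu t), fun t => (hSmem _).2 (hv t)⟩,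
        (hPGmem _).2 hP, (hPGmem _).2 hP'⟩, hOp, hτ⟩
  have hBad : ∀ r ∈ (range (2 ^ a + 1)).filter (fun r : ℕ => C₀ * a * n ^ 2 ≤ r),
      (mu a n).real (Bad r) ≤ Real.exp (-(11 * a)) := by
    intro r hr
    rw [mem_filter, mem_range] at hr
    obtain ⟨hr1, hr2⟩ := hr
    have hrpos : (0 : ℝ) < r := lt_of_lt_of_le (by positivity) hr2
    have hr1' : (1 : ℝ) ≤ r := by
      have : 0 < r := by exact_mod_cast hrpos
      exact_mod_cast this
    refine (measureReal_biUnion_finset_le _ _).trans ?_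
    have h1 : ∀ c ∈ ((Fintype.piFinset (fun _ : Fin r => S) ×ˢ
        Fintype.piFinset (fun _ : Fin r => S)) ×ˢ (PG ×ˢ PG)).filter (fun c => Op2 c.2.1 c.2.2 ∧
          45 / 100 * ε * r ≤ tauC ρ c.1.1 c.1.2 c.2.1 c.2.2),
        (mu a n).real {x | QC c.1.1 c.1.2 c.2.1 c.2.2 (Gx x) ≤
          9 / 10 * tauC ρ c.1.1 c.1.2 c.2.1 c.2.2} ≤ Real.exp (-(20 * a * q * r)) := by
      intro c hc
      rw [mem_filter, mem_product, mem_product, mem_product, Fintype.mem_piFinset,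
        Fintype.mem_piFinset] at hc
      obtain ⟨⟨⟨hu, hv⟩, -, -⟩, hOp, hτ⟩ := hc
      refine (tail_code hnN ρ hρ H hH c.1.1 c.1.2 c.2.1 c.2.2
        (fun t => ((hSmem _).1 (hu t)).2.2) (fun t => ((hSmem _).1 (hv t)).2.2) hOp).trans ?_
      apply Real.exp_le_exp.2
      rw [neg_le_neg_iff, le_div_iff₀ (by positivity)]
      -- `20 a q r (3200 ρ H²) ≤ τ n`
      have e1 : 20 * (a : ℝ) * q * r * (3200 * ρ * H ^ 2) ≤ 45 / 100 * ε * r * (C₀ * a * q * ρ) := by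
        have e2 : 64000 * H ^ 2 ≤ 45 / 100 * ε * C₀ := by
          have e3 : ε * (150000 * (H ^ 2 / ε)) ≤ ε * C₀ := mul_le_mul_of_nonneg_left hC2' hε.le
          have e4 : ε * (150000 * (H ^ 2 / ε)) = 150000 * H ^ 2 := by field_simp
          linarith
        have e5 : 0 ≤ (a : ℝ) * q * r * ρ := by positivity
        have e6 := mul_le_mul_of_nonneg_right e2 e5
        calc 20 * (a : ℝ) * q * r * (3200 * ρ * H ^ 2) = 64000 * H ^ 2 * (a * q * r * ρ) := by ring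
          _ ≤ 45 / 100 * ε * C₀ * (a * q * r * ρ) := e6
          _ = _ := by ring
      have e2 : 45 / 100 * ε * r * (C₀ * a * q * ρ) ≤ 45 / 100 * ε * r * n :=
        mul_le_mul_of_nonneg_left hn (by positivity)
      have e3 : 45 / 100 * ε * r * n ≤ tauC ρ c.1.1 c.1.2 c.2.1 c.2.2 * n :=
        mul_le_mul_of_nonneg_right hτ hn0.le
      linarith
    refine (sum_le_card_nsmul _ _ _ h1).trans ?_
    rw [nsmul_eq_mul]
    have h2 : (#(((Fintype.piFinset (fun _ : Fin r => S) ×ˢ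
        Fintype.piFinset (fun _ : Fin r => S)) ×ˢ (PG ×ˢ PG)).filter (fun c => Op2 c.2.1 c.2.2 ∧
          45 / 100 * ε * r ≤ tauC ρ c.1.1 c.1.2 c.2.1 c.2.2)) : ℝ) ≤ 2 ^ (9 * a * q * r) := by
      have h3 : #(((Fintype.piFinset (fun _ : Fin r => S) ×ˢ
        Fintype.piFinset (fun _ : Fin r => S)) ×ˢ (PG ×ˢ PG)).filter (fun c => Op2 c.2.1 c.2.2 ∧
          45 / 100 * ε * r ≤ tauC ρ c.1.1 c.1.2 c.2.1 c.2.2)) ≤ 2 ^ (9 * a * q * r) := by
        refine (card_filter_le _ _).trans ?_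
        rw [card_product, card_product, card_product, Fintype.card_piFinset_const]
        calc #S ^ r * #S ^ r * (#PG * #PG)
            ≤ (2 ^ (4 * a * q)) ^ r * (2 ^ (4 * a * q)) ^ r *
              (2 ^ ((2 * a + 2) * (n * m)) * 2 ^ ((2 * a + 2) * (n * m))) := by
              gcongr
          _ = 2 ^ (8 * a * q * r + 2 * ((2 * a + 2) * (n * m))) := by
              rw [← pow_mul, ← pow_add, ← pow_add, ← pow_add]
              congr 1
              ring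
          _ ≤ 2 ^ (9 * a * q * r) := by
              refine Nat.pow_le_pow_right (by norm_num) ?_
              have h4 : 8 * (a * n ^ 2) ≤ r := by
                have h5 : 8 * ((a : ℝ) * n ^ 2) ≤ r := by
                  refine le_trans ?_ hr2
                  have : 0 ≤ (a : ℝ) * n ^ 2 := by positivity
                  nlinarith
                exact_mod_cast h5
              have h5 : 2 * ((2 * a + 2) * (n * m)) ≤ 8 * (a * n ^ 2) := by
                have h6 : n * m ≤ n ^ 2 := by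
                  rw [sq]
                  exact Nat.mul_le_mul_left n hmn
                have h7 : 2 * a + 2 ≤ 4 * a := by omega
                calc 2 * ((2 * a + 2) * (n * m)) ≤ 2 * ((4 * a) * n ^ 2) := by gcongr
                  _ = _ := by ring
              have h6 : r ≤ a * q * r := by
                have : 1 ≤ a * q := Nat.one_le_iff_ne_zero.2 (by positivity)
                nlinarith
              have h7 : 9 * a * q * r = 8 * a * q * r + a * q * r := by ring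
              omega
      exact_mod_cast h3
    refine (mul_le_mul_of_nonneg_right h2 (Real.exp_pos _).le).trans ?_
    refine (mul_le_mul_of_nonneg_right (two_pow_le_exp _) (Real.exp_pos _).le).trans ?_
    rw [← Real.exp_add]
    apply Real.exp_le_exp.2
    push_cast
    have h3 : (a : ℝ) ≤ a * q * r := by
      have : (1 : ℝ) ≤ q * r := one_le_mul_of_one_le_of_one_le hq1 hr1'
      calc (a : ℝ) = a * 1 := (mul_one _).symm
        _ ≤ a * (q * r) := by gcongr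
        _ = _ := by ring
    linarith
  refine (measureReal_mono hsub (measure_ne_top _ _)).trans ?_
  refine (measureReal_biUnion_finset_le _ _).trans ?_
  refine (sum_le_card_nsmul _ _ _ hBad).trans ?_
  rw [nsmul_eq_mul]
  have h1 : (#((range (2 ^ a + 1)).filter (fun r : ℕ => C₀ * a * n ^ 2 ≤ r)) : ℝ) ≤ 2 ^ (a + 1) := by
    have h2 : #((range (2 ^ a + 1)).filter (fun r : ℕ => C₀ * a * n ^ 2 ≤ r)) ≤ 2 ^ (a + 1) := by
      refine (card_filter_le _ _).trans ?_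
      rw [card_range, pow_succ]
      have : 1 ≤ 2 ^ a := Nat.one_le_two_pow
      omega
    exact_mod_cast h2
  refine (mul_le_mul_of_nonneg_right h1 (Real.exp_pos _).le).trans ?_
  refine (mul_le_mul_of_nonneg_right (two_pow_le_exp _) (Real.exp_pos _).le).trans ?_
  rw [← Real.exp_add]
  have h2 : Real.exp (((a + 1 : ℕ) : ℝ) + -(11 * a)) ≤ Real.exp (-4) := by
    apply Real.exp_le_exp.2
    push_cast
    linarith
  refine h2.trans ?_
  rw [Real.exp_neg, inv_le_comm₀ (Real.exp_pos _) (by norm_num)]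
  have := Real.add_one_le_exp (4 : ℝ)
  norm_num
  linarith

end Run7.h973.NEG
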